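import Pool.Agent.X20.Tr.AvE

/-!
# Cubic-progression averages along `⌊α n ^ c⌋`

From Mathlib: `T^[n]`: the `n`-th iterate of `T`; `AEStronglyMeasurable`: measurability up to null sets; `dimH E`: the
Hausdorff dimension of `E`; `⌊x⌋₊`: the integer part; `𝓝`: neighbourhoods.
-/

set_option autoImplicit false

namespace Pool.Agent.Results.MP_9721b5_an.AlongDilatedPowers

open Finset Filter Topology MeasureTheory
open Pool.Agent.X20.Tr

universe u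

/-- the average of `f (T ^ m x) g (T ^ (2 m) x) h (T ^ (3 m) x)` over `m = s n`, `n ≤ N` -/
noncomputable def avg {X : Type u} (T : X → X) (f g h : X → ℂ) (s : ℕ → ℕ) (x : X) (N : ℕ) : ℂ :=
  (1 / (N : ℂ)) * ∑ n ∈ Icc 1 N, f (T^[s n] x) * g (T^[2 * s n] x) * h (T^[3 * s n] x)

/-- For every real `c > 1` there is `0 < κ < 1` such that for every measure preserving map `T` of a probability space and
all `f, g, h` in `L^∞`:

* for almost every `x` there is a set `E` of Hausdorff dimension at most `1 - κ` such that for every real `α > 0` outside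
  `E` the averages over the integers converge to `L` if and only if those along `⌊α n ^ c⌋` converge to `L`;
* for almost every `α > 0` this holds for almost every `x`;
* for almost every `α > 0`: the averages over the integers converge almost everywhere if and only if those along
  `⌊α n ^ c⌋` do. -/
theorem result (c : ℝ) (hc : 1 < c) : ∃ κ : ℝ, 0 < κ ∧ κ < 1 ∧
    ∀ (X : Type u) [MeasurableSpace X] (μ : Measure X) [IsProbabilityMeasure μ] (T : X → X), MeasurePreserving T μ μ →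
    ∀ f g h : X → ℂ, AEStronglyMeasurable f μ → AEStronglyMeasurable g μ → AEStronglyMeasurable h μ →
    (∃ C : ℝ, ∀ᵐ x ∂μ, ‖f x‖ ≤ C) → (∃ C : ℝ, ∀ᵐ x ∂μ, ‖g x‖ ≤ C) → (∃ C : ℝ, ∀ᵐ x ∂μ, ‖h x‖ ≤ C) →
      (∀ᵐ x ∂μ, ∃ E : Set ℝ, dimH E ≤ ENNReal.ofReal (1 - κ) ∧ ∀ α : ℝ, 0 < α → α ∉ E → ∀ L : ℂ,
        Tendsto (avg T f g h (fun n => n) x) atTop (𝓝 L) ↔
          Tendsto (avg T f g h (fun n => ⌊α * (n : ℝ) ^ c⌋₊) x) atTop (𝓝 L)) ∧
      (∀ᵐ α : ℝ, 0 < α → ∀ᵐ x ∂μ, ∀ L : ℂ,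
        Tendsto (avg T f g h (fun n => n) x) atTop (𝓝 L) ↔
          Tendsto (avg T f g h (fun n => ⌊α * (n : ℝ) ^ c⌋₊) x) atTop (𝓝 L)) ∧
      (∀ᵐ α : ℝ, 0 < α →
        ((∀ᵐ x ∂μ, ∃ L : ℂ, Tendsto (avg T f g h (fun n => n) x) atTop (𝓝 L)) ↔
          ∀ᵐ x ∂μ, ∃ L : ℂ, Tendsto (avg T f g h (fun n => ⌊α * (n : ℝ) ^ c⌋₊) x) atTop (𝓝 L))) := by
  obtain ⟨κ, hκ0, hκ1, H⟩ := aeSparse.{u} c hc
  refine ⟨κ, hκ0, hκ1, fun X _ μ _ T hT f g h hf hg hh ⟨C₁, hfb⟩ ⟨C₂, hgb⟩ ⟨C₃, hhb⟩ => ?_⟩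
  obtain ⟨a1, a2⟩ := H X μ (fun x m => f (T^[m] x) * g (T^[2 * m] x) * h (T^[3 * m] x))
    (fun m => by
      have q : ∀ k : ℕ, Measure.QuasiMeasurePreserving T^[k] μ μ := fun k => (hT.iterate k).quasiMeasurePreserving
      exact ((hf.comp_quasiMeasurePreserving (q m)).mul (hg.comp_quasiMeasurePreserving (q (2 * m)))).mul
        (hh.comp_quasiMeasurePreserving (q (3 * m))))
    (by
      have q : ∀ k : ℕ, Measure.QuasiMeasurePreserving T^[k] μ μ := fun k => (hT.iterate k).quasiMeasurePreserving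
      have b1 : ∀ᵐ x ∂μ, ∀ m : ℕ, ‖f (T^[m] x)‖ ≤ C₁ := ae_all_iff.2 fun m => (q m).ae hfb
      have b2 : ∀ᵐ x ∂μ, ∀ m : ℕ, ‖g (T^[m] x)‖ ≤ C₂ := ae_all_iff.2 fun m => (q m).ae hgb
      have b3 : ∀ᵐ x ∂μ, ∀ m : ℕ, ‖h (T^[m] x)‖ ≤ C₃ := ae_all_iff.2 fun m => (q m).ae hhb
      filter_upwards [b1, b2, b3] with x h1 h2 h3
      have c1 : 0 ≤ C₁ := (norm_nonneg _).trans (h1 0)
      have c2 : 0 ≤ C₂ := (norm_nonneg _).trans (h2 0)
      refine ⟨C₁ * C₂ * C₃, fun m => ?_⟩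
      rw [norm_mul, norm_mul]
      exact mul_le_mul (mul_le_mul (h1 _) (h2 _) (norm_nonneg _) c1) (h3 _) (norm_nonneg _) (mul_nonneg c1 c2))
  refine ⟨a1, a2, ?_⟩
  filter_upwards [a2] with α hα hα0
  have h1 := hα hα0
  constructor
  · intro h2
    filter_upwards [h1, h2] with x k1 ⟨L, k2⟩
    exact ⟨L, (k1 L).1 k2⟩
  · intro h2
    filter_upwards [h1, h2] with x k1 ⟨L, k2⟩
    exact ⟨L, (k1 L).2 k2⟩

end Pool.Agent.Results.MP_9721b5_an.AlongDilatedPowers
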