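import Pool.Agent.X85.GenExp

set_option autoImplicit false

/-!
# The exponents `(n, 2n, c n)` for almost every `c`

The question is whether the averages of `f(T^n x) g(T^{2n} x) h(T^{3n} x)` converge almost everywhere. Here the third
exponent `3` is replaced by a real number `c` (with `T^{⌊c n⌋}`) and it is shown that for Lebesgue almost every `c > 0`,
for an ARBITRARY measure preserving map `T` of a probability space and all `f, g, h` in `L^∞`,

`(1/N) ∑ f(T^n x) g(T^{2n} x) h(T^{⌊c n⌋} x) - E(h|T)(x) * (1/N) ∑ f(T^n x) g(T^{2n} x) → 0` for almost every `x`.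

By Bourgain's double recurrence theorem the bilinear averages converge almost everywhere, so that the trilinear
averages with the exponents `(n, 2n, c n)` converge almost everywhere for almost every `c`. More generally
(1) `c n` may be replaced by `c p(n)` for a real polynomial `p` or a power `n^θ`, `θ > 0`, and the sequence
`f(T^n x) g(T^{2n} x)` by any uniformly bounded sequence of measurable functions `W_n(x)` (for instance a product of
any number of factors `f_i(T^{e_i n} x)`); (2) for almost every `x`, depending only on `T, h, p`, this holds for EVERY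
bounded sequence of weights and almost every `c`; (3) for almost every triple `(a, b, c)` the averages of
`f(T^{⌊a n⌋} x) g(T^{⌊b n⌋} x) h(T^{⌊c n⌋} x)` converge almost everywhere to `E(f|T) E(g|T) E(h|T)`.
-/

namespace Pool.Agent.Results.MP_9721b5_an.GenericExponents

open MeasureTheory Filter Finset

universe u

/-- the sequences of times: a real polynomial of positive degree with positive leading coefficient, or a positive
power of `n` -/
def IsTimes (p : ℕ → ℝ) : Prop :=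
  (∃ P : Polynomial ℝ, 0 < P.natDegree ∧ 0 < P.leadingCoeff ∧ ∀ n : ℕ, p n = P.eval (n : ℝ)) ∨
    ∃ θ : ℝ, 0 < θ ∧ ∀ n : ℕ, p n = (n : ℝ) ^ θ

lemma IsTimes.good {p : ℕ → ℝ} (h : IsTimes p) : Pool.Agent.Y957.MC.Good p := by
  rcases h with ⟨P, h1, h2, h3⟩ | ⟨θ, h1, h2⟩
  · rw [show p = fun n : ℕ => P.eval (n : ℝ) from funext h3]
    exact Pool.Agent.Y957.MC.good_poly h1 h2
  · rw [show p = fun n : ℕ => (n : ℝ) ^ θ from funext h2]
    exact Pool.Agent.Y957.MC.good_pow h1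

lemma isTimes_id : IsTimes fun n : ℕ => (n : ℝ) :=
  Or.inl ⟨Polynomial.X, by simp, by simp, fun n => by simp⟩

/-- Let `T` be a measure preserving map (not necessarily invertible or ergodic) of a probability space, `h` in `L^∞`
and `p` a polynomial or a power as above.

(1) For almost every `x`, for EVERY bounded sequence `B`, for almost every `c > 0`,
`(1/N) ∑ B(n) (h(T^{⌊c p(n)⌋} x) - E(h|T)(x)) → 0`.

(2) For every uniformly bounded sequence of measurable functions `W_n`, for almost every `c > 0` and almost every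
`x`, `(1/N) ∑ W_n(x) h(T^{⌊c p(n)⌋} x) - E(h|T)(x) (1/N) ∑ W_n(x) → 0`.

(3) For `f, g` in `L^∞` and almost every `c > 0`, for almost every `x`, the difference of the averages of
`f(T^n x) g(T^{2n} x) h(T^{⌊c n⌋} x)` and of `E(h|T)(x) f(T^n x) g(T^{2n} x)` tends to zero.

(4) For almost every `(a, b, c)` the averages of `f(T^{⌊a n⌋} x) g(T^{⌊b n⌋} x) h(T^{⌊c n⌋} x)` converge for almost
every `x` to `E(f|T)(x) E(g|T)(x) E(h|T)(x)`. -/
theorem result (X : Type u) [MeasurableSpace X] (μ : Measure X) [IsProbabilityMeasure μ] (T : X → X)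
    (hT : MeasurePreserving T μ μ) (h : X → ℂ) (hh : AEStronglyMeasurable h μ)
    (hhb : ∃ C : ℝ, ∀ᵐ x ∂μ, ‖h x‖ ≤ C) :
    (∀ p : ℕ → ℝ, IsTimes p →
      ∀ᵐ x ∂μ, ∀ B : ℕ → ℂ, (∃ C : ℝ, ∀ n, ‖B n‖ ≤ C) → ∀ᵐ c : ℝ, 0 < c →
        Tendsto (fun N : ℕ => (1 / (N : ℂ)) * ∑ n ∈ Icc 1 N, B n *
          (h (T^[⌊c * p n⌋₊] x) - (μ[h | MeasurableSpace.invariants T]) x)) atTop (nhds 0)) ∧
    (∀ p : ℕ → ℝ, IsTimes p → ∀ W : ℕ → X → ℂ, (∀ n, AEStronglyMeasurable (W n) μ) →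
      (∃ C : ℝ, ∀ n, ∀ᵐ x ∂μ, ‖W n x‖ ≤ C) →
      ∀ᵐ c : ℝ, 0 < c → ∀ᵐ x ∂μ,
        Tendsto (fun N : ℕ => (1 / (N : ℂ)) * ∑ n ∈ Icc 1 N, W n x * h (T^[⌊c * p n⌋₊] x) -
          (μ[h | MeasurableSpace.invariants T]) x * ((1 / (N : ℂ)) * ∑ n ∈ Icc 1 N, W n x)) atTop (nhds 0)) ∧
    (∀ f g : X → ℂ, AEStronglyMeasurable f μ → AEStronglyMeasurable g μ →
      (∃ C : ℝ, ∀ᵐ x ∂μ, ‖f x‖ ≤ C) → (∃ C : ℝ, ∀ᵐ x ∂μ, ‖g x‖ ≤ C) →
      (∀ᵐ c : ℝ, 0 < c → ∀ᵐ x ∂μ,
        Tendsto (fun N : ℕ =>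
          (1 / (N : ℂ)) * ∑ n ∈ Icc 1 N, f (T^[n] x) * g (T^[2 * n] x) * h (T^[⌊c * n⌋₊] x) -
          (μ[h | MeasurableSpace.invariants T]) x *
            ((1 / (N : ℂ)) * ∑ n ∈ Icc 1 N, f (T^[n] x) * g (T^[2 * n] x))) atTop (nhds 0)) ∧
      ∀ᵐ a : Fin 3 → ℝ, (∀ j, 0 < a j) → ∀ᵐ x ∂μ,
        Tendsto (fun N : ℕ => (1 / (N : ℂ)) * ∑ n ∈ Icc 1 N,
          f (T^[⌊a 0 * n⌋₊] x) * g (T^[⌊a 1 * n⌋₊] x) * h (T^[⌊a 2 * n⌋₊] x)) atTop
          (nhds ((μ[f | MeasurableSpace.invariants T]) x * (μ[g | MeasurableSpace.invariants T]) x *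
            (μ[h | MeasurableSpace.invariants T]) x))) := by
  have key : ∀ p : ℕ → ℝ, IsTimes p → ∀ W : ℕ → X → ℂ, (∀ n, AEStronglyMeasurable (W n) μ) →
      (∃ C : ℝ, ∀ n, ∀ᵐ x ∂μ, ‖W n x‖ ≤ C) →
      ∀ᵐ c : ℝ, 0 < c → ∀ᵐ x ∂μ,
        Tendsto (fun N : ℕ => (1 / (N : ℂ)) * ∑ n ∈ Icc 1 N, W n x * h (T^[⌊c * p n⌋₊] x) -
          (μ[h | MeasurableSpace.invariants T]) x * ((1 / (N : ℂ)) * ∑ n ∈ Icc 1 N, W n x)) atTop (nhds 0) := by
    intro p hp W hW hWb
    filter_upwards [Pool.Agent.X85.GenExp.sys hT hp.good hh hhb hW hWb] with c hc hc0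
    filter_upwards [hc hc0] with x hx
    refine hx.congr fun N => ?_
    simp only [mul_sub, sum_sub_distrib, ← sum_mul]
    ring
  refine ⟨fun p hp => Pool.Agent.X85.GenExp.bty_Linf hT hp.good hh hhb, key, ?_⟩
  intro f g hf hg hfb hgb
  refine ⟨?_, ?_⟩
  · obtain ⟨Cf, hCf⟩ := hfb
    obtain ⟨Cg, hCg⟩ := hgb
    exact key (fun n => (n : ℝ)) isTimes_id (fun n x => f (T^[n] x) * g (T^[2 * n] x))
      (fun n => (hf.comp_measurePreserving (hT.iterate n)).mul (hg.comp_measurePreserving (hT.iterate (2 * n))))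
      ⟨|Cf| * |Cg|, fun n => by
        filter_upwards [(hT.iterate n).quasiMeasurePreserving.ae hCf,
          (hT.iterate (2 * n)).quasiMeasurePreserving.ae hCg] with x h1 h2
        rw [norm_mul]
        exact mul_le_mul (h1.trans (le_abs_self _)) (h2.trans (le_abs_self _)) (norm_nonneg _) (abs_nonneg _)⟩
  · have h1 := Pool.Agent.Y957.MC.maps_Linf (μ := μ) (T := fun _ : Fin 3 => T) (fun _ => hT)
      (p := fun _ n => (n : ℝ)) (fun _ => isTimes_id.good) (f := ![f, g, h])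
      (by intro j; fin_cases j; exacts [hf, hg, hh]) (by intro j; fin_cases j; exacts [hfb, hgb, hhb])
    filter_upwards [h1] with a ha hpos
    filter_upwards [ha hpos] with x hx
    simpa [Fin.prod_univ_three] using hx

end Pool.Agent.Results.MP_9721b5_an.GenericExponents
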