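import Pool.Agent.X159.PE.Main

/-!
# MP_9721b5_an: cubic averages with weights, for example over the squarefree numbers

For a weight `w : ℕ → ℝ` and natural numbers `a_1, …, a_k` let `Pointwise w a` be the statement: for
every measure preserving map `T` of a probability space and all bounded `f, g_1, …, g_k` the averages
`(1/N) ∑_{n ≤ N} w(n) f(T^n x) ∏_j g_j(T^(a_j n) x)` converge for almost every `x`. Q1 is
`Pointwise 1 (2, 3)`.

* If `w` unfolds (finite combinations of the sequences `n ↦ w(q n + r)`, with one `q`, approximate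
  the constant `1` in the mean), then `Pointwise w a` implies `Pointwise 1 a`. So it is enough to
  prove Q1 along one such set. Every `w` whose means over short intervals tend to a constant `c ≠ 0`
  in the mean unfolds.
* If `w` is rationally almost periodic, then `Pointwise w a` holds if and only if the mean of `|w|` is
  `0` or `Pointwise 1 a` holds.
* The indicator of the integers free of divisors `d_i`, `∑ 1/d_i < ∞`, is rationally almost periodic.
  Q1 is equivalent to the almost everywhere convergence of the averages over the squarefree numbers.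
-/

set_option autoImplicit false

namespace Pool.Agent.Results.MP_9721b5_an.RationalWeights

open MeasureTheory Filter Topology Finset
open Pool.Agent.X159.PE

/-- the statement of Q1 with the weight `w` -/
def Cubic (w : ℕ → ℝ) : Prop :=
  ∀ (X : Type) [MeasurableSpace X] (μ : Measure X) [IsProbabilityMeasure μ] (T : X → X),
    MeasurePreserving T μ μ →
    ∀ f g h : X → ℝ, MemLp f ⊤ μ → MemLp g ⊤ μ → MemLp h ⊤ μ →
      ∀ᵐ x ∂μ, ∃ L : ℝ,
        Tendsto (fun N : ℕ => (N : ℝ)⁻¹ *
            ∑ n ∈ Finset.Icc 1 N, w n * (f (T^[n] x) * g (T^[2 * n] x) * h (T^[3 * n] x)))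
          atTop (nhds L)

/-- the statement of Q1 -/
def Q1 : Prop :=
  ∀ (X : Type) [MeasurableSpace X] (μ : Measure X) [IsProbabilityMeasure μ] (T : X → X),
    MeasurePreserving T μ μ →
    ∀ f g h : X → ℝ, MemLp f ⊤ μ → MemLp g ⊤ μ → MemLp h ⊤ μ →
      ∀ᵐ x ∂μ, ∃ L : ℝ,
        Tendsto (fun N : ℕ => (N : ℝ)⁻¹ *
            ∑ n ∈ Finset.Icc 1 N, f (T^[n] x) * g (T^[2 * n] x) * h (T^[3 * n] x))
          atTop (nhds L)

/-- the statement of Q1 for the averages over the squarefree numbers -/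
def Q1Squarefree : Prop :=
  ∀ (X : Type) [MeasurableSpace X] (μ : Measure X) [IsProbabilityMeasure μ] (T : X → X),
    MeasurePreserving T μ μ →
    ∀ f g h : X → ℝ, MemLp f ⊤ μ → MemLp g ⊤ μ → MemLp h ⊤ μ →
      ∀ᵐ x ∂μ, ∃ L : ℝ,
        Tendsto (fun N : ℕ => (N : ℝ)⁻¹ *
            ∑ n ∈ (Finset.Icc 1 N).filter Squarefree,
              f (T^[n] x) * g (T^[2 * n] x) * h (T^[3 * n] x))
          atTop (nhds L)

theorem cubic_iff (w : ℕ → ℝ) : Cubic w ↔ Pointwise w ![2, 3] := by
  constructor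
  · intro h X _ μ _ T hT f g hf hg
    filter_upwards [h X μ T hT f (g 0) (g 1) hf (hg 0) (hg 1)] with x hx
    obtain ⟨L, hL⟩ := hx
    refine ⟨L, hL.congr fun N => ?_⟩
    congr 1
    refine Finset.sum_congr rfl fun n _ => ?_
    rw [Fin.prod_univ_two]
    simp [mul_assoc]
  · intro h X _ μ _ T hT f g k hf hg hk
    have h1 := h X μ T hT f ![g, k] hf (by
      intro j
      fin_cases j
      · exact hg
      · exact hk)
    filter_upwards [h1] with x hx
    obtain ⟨L, hL⟩ := hx
    refine ⟨L, hL.congr fun N => ?_⟩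
    congr 1
    refine Finset.sum_congr rfl fun n _ => ?_
    rw [Fin.prod_univ_two]
    simp [mul_assoc]

theorem q1_iff : Q1 ↔ Pointwise (fun _ => 1) ![2, 3] := by
  rw [← cubic_iff]
  constructor
  · intro h X _ μ _ T hT f g k hf hg hk
    filter_upwards [h X μ T hT f g k hf hg hk] with x hx
    obtain ⟨L, hL⟩ := hx
    refine ⟨L, hL.congr fun N => ?_⟩
    congr 1
    exact Finset.sum_congr rfl fun n _ => (one_mul _).symm
  · intro h X _ μ _ T hT f g k hf hg hk
    filter_upwards [h X μ T hT f g k hf hg hk] with x hx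
    obtain ⟨L, hL⟩ := hx
    refine ⟨L, hL.congr fun N => ?_⟩
    congr 1
    exact Finset.sum_congr rfl fun n _ => one_mul _

theorem sq_iff : Q1Squarefree ↔ Cubic (free fun i => (i + 2) ^ 2) := by
  have key : ∀ (F : ℕ → ℝ) (N : ℕ),
      ∑ n ∈ (Finset.Icc 1 N).filter Squarefree, F n =
        ∑ n ∈ Finset.Icc 1 N, free (fun i => (i + 2) ^ 2) n * F n := by
    intro F N
    rw [Finset.sum_filter]
    refine Finset.sum_congr rfl fun n hn => ?_
    have h1 := free_sq (Finset.mem_Icc.1 hn).1
    unfold free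
    by_cases hs : Squarefree n
    · rw [if_pos hs, if_pos (h1.2 hs), one_mul]
    · rw [if_neg hs, if_neg (fun h => hs (h1.1 h)), zero_mul]
  constructor
  · intro h X _ μ _ T hT f g k hf hg hk
    filter_upwards [h X μ T hT f g k hf hg hk] with x hx
    obtain ⟨L, hL⟩ := hx
    refine ⟨L, hL.congr fun N => ?_⟩
    rw [key]
  · intro h X _ μ _ T hT f g k hf hg hk
    filter_upwards [h X μ T hT f g k hf hg hk] with x hx
    obtain ⟨L, hL⟩ := hx
    refine ⟨L, hL.congr fun N => ?_⟩
    rw [key]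

/-- (1) Weights which unfold. (2) Rationally almost periodic weights. (3) Criteria. (4) Integers free
of divisors from a thin family. (5) The squarefree numbers. -/
theorem result :
    (∀ w : ℕ → ℝ, Unfolds w → ∀ (k : ℕ) (a : Fin k → ℕ),
      Pointwise w a → Pointwise (fun _ => 1) a) ∧
    (∀ w : ℕ → ℝ, RAP w → ∀ (k : ℕ) (a : Fin k → ℕ),
      (Pointwise w a ↔ (Null w ∨ Pointwise (fun _ => 1) a))) ∧
    (∀ w : ℕ → ℝ, (∀ c : ℝ, c ≠ 0 → ShortMeans w c → Unfolds w) ∧
      (RAP w → ¬ Null w → Unfolds w) ∧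
      (Unfolds w → Cubic w → Q1) ∧ (RAP w → ¬ Null w → (Cubic w ↔ Q1))) ∧
    (∀ d : ℕ → ℕ, (∀ i, 0 < d i) → Summable (fun i => 1 / (d i : ℝ)) →
      RAP (free d) ∧ (∑' i, 1 / (d i : ℝ) < 1 → (Cubic (free d) ↔ Q1))) ∧
    (Q1Squarefree ↔ Q1) := by
  have hmain : ∀ w : ℕ → ℝ, RAP w → ¬ Null w → (Cubic w ↔ Q1) := by
    intro w hw hn
    rw [cubic_iff, q1_iff, main hw]
    exact ⟨fun h => h.resolve_left hn, Or.inr⟩
  refine ⟨fun w hw k a h => bwd hw a h, fun w hw k a => main hw a, fun w =>
    ⟨fun c hc h => h.unfolds hc, fun hw hn => hw.unfolds hn, fun hw h => ?_, hmain w⟩,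
    fun d hd hs => ⟨free_rap hd hs, fun h1 => hmain _ (free_rap hd hs) (free_not_null hd hs h1)⟩, ?_⟩
  · rw [q1_iff]
    rw [cubic_iff] at h
    exact bwd hw _ h
  · rw [sq_iff]
    have hd : ∀ i : ℕ, 0 < (i + 2) ^ 2 := fun i => by positivity
    exact hmain _ (free_rap hd sq_summable) (free_not_null hd sq_summable sq_tsum)

end Pool.Agent.Results.MP_9721b5_an.RationalWeights
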