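import Pool.Agent.Y957.MC.Fin7

set_option autoImplicit false

/-!
# A zero-one law for cubic progressions along the times of a flow

Let `τ` be a measurable measure preserving flow on a probability space and `f, g, h` in `L^∞`. For the time maps
`T = τ_a` of the flow the question about the averages of `f(T^n x) g(T^{2n} x) h(T^{3n} x)` is reduced to its
continuous analogue, and the answer is the same for almost all `a`:

(1) for almost every `a > 0`, at almost every point `x`, the averages of `f(T^n x) g(T^{2n} x) h(T^{3n} x)`, `T = τ_a`,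
converge to a number `L` if and only if the continuous averages `(1/V) ∫_0^V f(τ_v x) g(τ_{2v} x) h(τ_{3v} x) dv`
(which do not depend on `a`) converge to `L`, and if and only if the averages with weights `B(n)` converge to `b L`,
for a Besicovitch almost periodic sequence `B` with mean `b ≠ 0` (such as the indicator function of the squarefree
numbers or of a residue class);

(2) the set of all `a > 0` such that the averages converge almost everywhere for `T = τ_a` is either a null set or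
the complement of a null set in `(0, ∞)`.

The first part holds for any number of flows without any relation between them.
-/

namespace Pool.Agent.Results.MP_9721b5_an.ZeroOneLawTimes

open MeasureTheory Filter Finset

universe u

/-- a measurable measure preserving flow -/
structure IsFlow {X : Type u} [MeasurableSpace X] (μ : Measure X) (τ : ℝ → X → X) : Prop where
  meas : Measurable (fun p : ℝ × X => τ p.1 p.2)
  zero : ∀ x, τ 0 x = x
  add : ∀ s t x, τ (s + t) x = τ s (τ t x)
  mp : ∀ t, MeasurePreserving (τ t) μ μ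

/-- Besicovitch almost periodic sequences: limits of trigonometric polynomials in the mean -/
def Besicovitch (B : ℕ → ℂ) : Prop := ∀ ε : ℝ, 0 < ε → ∃ (s : Finset ℝ) (c : ℝ → ℂ), ∀ᶠ N : ℕ in atTop,
  (1 / (N : ℝ)) * ∑ n ∈ Icc 1 N,
    ‖B n - ∑ α ∈ s, c α * Complex.exp (((2 * Real.pi * α * n : ℝ) : ℂ) * Complex.I)‖ ≤ ε

/-- the averages `A_N(f, g, h)(x)` for the map `T` -/
noncomputable def avg {X : Type u} (T : X → X) (f g h : X → ℂ) (N : ℕ) (x : X) : ℂ :=
  (1 / (N : ℂ)) * ∑ n ∈ Icc 1 N, f (T^[n] x) * g (T^[2 * n] x) * h (T^[3 * n] x)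

lemma iter_flow {X : Type u} [MeasurableSpace X] {μ : Measure X} {τ : ℝ → X → X} (h : IsFlow μ τ) (a : ℝ) (x : X) :
    ∀ n : ℕ, (τ a)^[n] x = τ (a * n) x := by
  intro n
  induction n with
  | zero => simp [h.zero]
  | succ n ih =>
    rw [Function.iterate_succ_apply', ih, ← h.add]
    congr 1
    push_cast
    ring

lemma scale_flow {X : Type u} [MeasurableSpace X] {μ : Measure X} {τ : ℝ → X → X} (h : IsFlow μ τ) (e : ℝ) :
    Pool.Agent.Y957.MC.IsFlow μ (fun t => τ (e * t)) where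
  meas := h.meas.comp ((measurable_fst.const_mul e).prodMk measurable_snd)
  zero := fun x => by simp [h.zero]
  add := fun s t x => by rw [mul_add, h.add]
  mp := fun t => h.mp _

lemma besicovitch_one : Besicovitch fun _ => 1 := by
  intro ε hε
  refine ⟨{0}, fun _ => 1, Eventually.of_forall fun N => ?_⟩
  simp [hε.le]

/-- (1) Let `τ_1, ..., τ_m` be measurable measure preserving flows on a probability space, `f_j` in `L^∞` and `B` a
Besicovitch almost periodic sequence with mean `b`. For almost every `a > 0` and almost every `x`, the difference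
between the averages of `B(n) ∏ f_j(τ_j(a n) x)` over `n ≤ N` and `b` times the average of `∏ f_j(τ_j(v) x)` over
`0 ≤ v ≤ a N` tends to zero; and if `b ≠ 0`, then for all `L` the former converge to `b L` if and only if the averages
of `∏ f_j(τ_j(v) x)` over `0 ≤ v ≤ V` converge to `L` for `V → ∞`.

(2) The cubic averages along one flow: for almost every `a > 0`, for almost every `x` and all `L`, the averages
`A_N(f, g, h)(x)` for `T = τ_a` converge to `L` if and only if the averages of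
`f(τ_v x) g(τ_{2v} x) h(τ_{3v} x)` over `0 ≤ v ≤ V` do.

(3) If the set of all `a > 0` such that `A_N(f, g, h)` converges almost everywhere for `T = τ_a` is not a null set,
then its complement in `(0, ∞)` is a null set. -/
theorem result :
    (∀ (X : Type u) [MeasurableSpace X] (μ : Measure X) [IsProbabilityMeasure μ] (m : ℕ) (τ : Fin m → ℝ → X → X)
      (f : Fin m → X → ℂ) (B : ℕ → ℂ) (b : ℂ),
      (∀ j, IsFlow μ (τ j)) → (∀ j, AEStronglyMeasurable (f j) μ) → (∀ j, ∃ C : ℝ, ∀ᵐ x ∂μ, ‖f j x‖ ≤ C) →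
      Besicovitch B → Tendsto (fun N : ℕ => (1 / (N : ℂ)) * ∑ n ∈ Icc 1 N, B n) atTop (nhds b) →
      ∀ᵐ a : ℝ, 0 < a → ∀ᵐ x ∂μ,
        Tendsto (fun N : ℕ => (1 / (N : ℂ)) * ∑ n ∈ Icc 1 N, B n * ∏ j, f j (τ j (a * n) x) -
          b * ((1 / ((a * N : ℝ) : ℂ)) * ∫ v in (0 : ℝ)..(a * N), ∏ j, f j (τ j v x))) atTop (nhds 0) ∧
        (b ≠ 0 → ∀ L : ℂ,
          (Tendsto (fun N : ℕ => (1 / (N : ℂ)) * ∑ n ∈ Icc 1 N, B n * ∏ j, f j (τ j (a * n) x)) atTop
            (nhds (b * L)) ↔
          Tendsto (fun V : ℝ => (1 / (V : ℂ)) * ∫ v in (0 : ℝ)..V, ∏ j, f j (τ j v x)) atTop (nhds L)))) ∧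
    (∀ (X : Type u) [MeasurableSpace X] (μ : Measure X) [IsProbabilityMeasure μ] (τ : ℝ → X → X) (f g h : X → ℂ),
      IsFlow μ τ → AEStronglyMeasurable f μ → AEStronglyMeasurable g μ → AEStronglyMeasurable h μ →
      (∃ C : ℝ, ∀ᵐ x ∂μ, ‖f x‖ ≤ C) → (∃ C : ℝ, ∀ᵐ x ∂μ, ‖g x‖ ≤ C) → (∃ C : ℝ, ∀ᵐ x ∂μ, ‖h x‖ ≤ C) →
      (∀ᵐ a : ℝ, 0 < a → ∀ᵐ x ∂μ, ∀ L : ℂ,
        (Tendsto (fun N : ℕ => avg (τ a) f g h N x) atTop (nhds L) ↔
        Tendsto (fun V : ℝ => (1 / (V : ℂ)) * ∫ v in (0 : ℝ)..V, f (τ v x) * g (τ (2 * v) x) * h (τ (3 * v) x))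
          atTop (nhds L))) ∧
      (volume {a : ℝ | 0 < a ∧ ∀ᵐ x ∂μ, ∃ L : ℂ, Tendsto (fun N : ℕ => avg (τ a) f g h N x) atTop (nhds L)} ≠ 0 →
        ∀ᵐ a : ℝ, 0 < a → ∀ᵐ x ∂μ, ∃ L : ℂ, Tendsto (fun N : ℕ => avg (τ a) f g h N x) atTop (nhds L))) := by
  refine ⟨?_, ?_⟩
  · intro X _ μ _ m τ f B b hτ hf hfb hB hb
    exact Pool.Agent.Y957.MC.bes_conv (B := B) hB hb (fun j => ⟨(hτ j).meas, (hτ j).zero, (hτ j).add, (hτ j).mp⟩)
      hf hfb
  · intro X _ μ _ τ f g h hτ hf hg hh hfb hgb hhb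
    have hone : Tendsto (fun N : ℕ => (1 / (N : ℂ)) * ∑ n ∈ Icc 1 N, (1 : ℂ)) atTop (nhds 1) := by
      refine tendsto_const_nhds.congr' ?_
      filter_upwards [eventually_ge_atTop 1] with N hN
      have : (N : ℂ) ≠ 0 := by exact_mod_cast (by omega : N ≠ 0)
      simp [this]
    have h1 := Pool.Agent.Y957.MC.bes_conv (μ := μ) (B := fun _ => 1) besicovitch_one hone (m := 3)
      (τ := fun j t => τ (((j : ℕ) + 1 : ℝ) * t)) (fun j => scale_flow hτ _) (f := ![f, g, h])
      (by intro j; fin_cases j; exacts [hf, hg, hh]) (by intro j; fin_cases j; exacts [hfb, hgb, hhb])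
    have h2 : ∀ᵐ a : ℝ, 0 < a → ∀ᵐ x ∂μ, ∀ L : ℂ,
        (Tendsto (fun N : ℕ => avg (τ a) f g h N x) atTop (nhds L) ↔
        Tendsto (fun V : ℝ => (1 / (V : ℂ)) * ∫ v in (0 : ℝ)..V, f (τ v x) * g (τ (2 * v) x) * h (τ (3 * v) x))
          atTop (nhds L)) := by
      filter_upwards [h1] with a ha ha0
      filter_upwards [ha ha0] with x hx L
      have h3 := hx.2 one_ne_zero L
      have e1 : ∀ N : ℕ, avg (τ a) f g h N x = (1 / (N : ℂ)) * ∑ n ∈ Icc 1 N,
          f (τ (a * n) x) * g (τ (2 * (a * n)) x) * h (τ (3 * (a * n)) x) := by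
        intro N
        unfold avg
        congr 1
        refine sum_congr rfl fun n _ => ?_
        have a2 : a * ((2 * n : ℕ) : ℝ) = 2 * (a * n) := by push_cast; ring
        have a3 : a * ((3 * n : ℕ) : ℝ) = 3 * (a * n) := by push_cast; ring
        rw [iter_flow hτ, iter_flow hτ, iter_flow hτ, a2, a3]
      have e2 : ∀ v : ℝ, ∏ j : Fin 3, (![f, g, h] : Fin 3 → X → ℂ) j (τ (((j : ℕ) + 1 : ℝ) * v) x) =
          f (τ v x) * g (τ (2 * v) x) * h (τ (3 * v) x) := by
        intro v
        have a1 : (((0 : ℕ) : ℝ) + 1) * v = v := by push_cast; ring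
        have a2 : (((1 : ℕ) : ℝ) + 1) * v = 2 * v := by push_cast; ring
        have a3 : (((2 : ℕ) : ℝ) + 1) * v = 3 * v := by push_cast; ring
        rw [Fin.prod_univ_three]
        show f (τ ((((0 : ℕ) : ℝ) + 1) * v) x) * g (τ ((((1 : ℕ) : ℝ) + 1) * v) x) *
          h (τ ((((2 : ℕ) : ℝ) + 1) * v) x) = _
        rw [a1, a2, a3]
      simp only [e2, one_mul] at h3
      simp only [e1]
      exact h3
    refine ⟨h2, fun h0 => ?_⟩
    -- continuous averages converge almost everywhere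
    have h4 : ∀ᵐ x ∂μ, ∃ L : ℂ, Tendsto (fun V : ℝ => (1 / (V : ℂ)) *
        ∫ v in (0 : ℝ)..V, f (τ v x) * g (τ (2 * v) x) * h (τ (3 * v) x)) atTop (nhds L) := by
      by_contra hcon
      refine h0 ?_
      refine measure_mono_null (fun a ha => ?_) h2
      intro h5
      refine hcon ?_
      filter_upwards [h5 ha.1, ha.2] with x hx1 hx2
      obtain ⟨L, hL⟩ := hx2
      exact ⟨L, (hx1 L).1 hL⟩
    filter_upwards [h2] with a ha ha0
    filter_upwards [ha ha0, h4] with x hx1 hx2
    obtain ⟨L, hL⟩ := hx2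
    exact ⟨L, (hx1 L).2 hL⟩

end Pool.Agent.Results.MP_9721b5_an.ZeroOneLawTimes
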